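import Pool.Agent.Helper65.KH.Goals

/-! # Project KH (MP_20ee5e_ag), packet FD: finite dimension -/

set_option autoImplicit false

open MvPolynomial

namespace Pool.Agent.Helper34.KH.FD

open Pool.Agent.Helper65.KH

theorem monomial_eq_mon {ι : Type} [Fintype ι] (m : ι →₀ ℕ) (a : ℚ) :
    monomial m a = a • mon (fun i => m i) := by
  rw [monomial_eq, mon, Finsupp.prod_fintype _ _ (fun i => pow_zero _), smul_eq_C_mul]

theorem t : S_FD := by
  intro ι _ _ Q M
  classical
  refine ⟨⟨(Fintype.piFinset fun _ : ι => Finset.range M).image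
    (fun p => Ideal.Quotient.mk (Q ⊔ mm ι M) (mon p)), ?_⟩⟩
  rw [eq_top_iff]
  rintro x -
  obtain ⟨f, rfl⟩ := Ideal.Quotient.mk_surjective x
  induction f using MvPolynomial.induction_on' with
  | monomial m a =>
    rw [monomial_eq_mon]
    have h1 : Ideal.Quotient.mk (Q ⊔ mm ι M) (a • mon (fun i => m i)) =
        a • Ideal.Quotient.mk (Q ⊔ mm ι M) (mon (fun i => m i)) := rfl
    rw [h1]
    refine Submodule.smul_mem _ _ ?_
    by_cases hM : M ≤ ∑ i, m i
    · have h2 : mon (fun i => m i) ∈ Q ⊔ mm ι M :=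
        Ideal.mem_sup_right (Ideal.subset_span ⟨fun i => m i, hM, rfl⟩)
      rw [Ideal.Quotient.eq_zero_iff_mem.2 h2]
      exact Submodule.zero_mem _
    · refine Submodule.subset_span ?_
      rw [Finset.coe_image]
      refine ⟨fun i => m i, ?_, rfl⟩
      rw [Finset.mem_coe, Fintype.mem_piFinset]
      intro i
      rw [Finset.mem_range]
      have h3 : m i ≤ ∑ i, m i := Finset.single_le_sum (f := fun i => m i)
        (fun _ _ => Nat.zero_le _) (Finset.mem_univ i)
      omega
  | add p q hp hq =>
    rw [map_add]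
    exact Submodule.add_mem _ hp hq

end Pool.Agent.Helper34.KH.FD
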